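import Pool.Agent.Y960.QE.Int
import Pool.Agent.Y708.QE.Gr

/-!
# Project SM: the same surface with another continuous metric

`surf_of`: if `D` is a surface with the area `μ`, and `A'` is another continuous field of coframes in the charts of `D`
which is compatible with the coordinate changes, then `A'` defines a surface (with the area which has the density
`|det A'| / |det A|`).  Also the Cholesky coframe `chol e f g` of a positive definite form.
-/

set_option autoImplicit false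
set_option linter.unusedSectionVars false

open Set Filter Topology MeasureTheory
open scoped Real ContDiff
open Pool.Agent.Y262.QE

noncomputable section

namespace Pool.Agent.L7h53.SM

/-! ### Linear algebra -/

theorem app_eq (A : ℂ →L[ℝ] ℂ) (v : ℂ) : A v = v.re • A 1 + v.im • A Complex.I := by
  have h : v = v.re • (1 : ℂ) + v.im • Complex.I := by
    apply Complex.ext <;> simp
  conv_lhs => rw [h]
  rw [map_add, map_smul, map_smul]

theorem det_eq (A : ℂ →L[ℝ] ℂ) : A.det = (A 1).re * (A Complex.I).im - (A Complex.I).re * (A 1).im := by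
  have h : A.det = LinearMap.det (A : ℂ →ₗ[ℝ] ℂ) := rfl
  rw [h, ← LinearMap.det_toMatrix Complex.basisOneI, Matrix.det_fin_two]
  simp [LinearMap.toMatrix_apply]

/-- the mixed coefficient of the form -/
def mx (A : ℂ →L[ℝ] ℂ) : ℝ := (‖A (1 + Complex.I)‖ ^ 2 - ‖A 1‖ ^ 2 - ‖A Complex.I‖ ^ 2) / 2

theorem mx_eq (A : ℂ →L[ℝ] ℂ) :
    mx A = (A 1).re * (A Complex.I).re + (A 1).im * (A Complex.I).im := by
  rw [mx, map_add]
  simp only [← Complex.normSq_eq_norm_sq, Complex.normSq_apply, Complex.add_re, Complex.add_im]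
  ring

theorem nsq (A : ℂ →L[ℝ] ℂ) (v : ℂ) : ‖A v‖ ^ 2 =
    v.re ^ 2 * ‖A 1‖ ^ 2 + 2 * v.re * v.im * mx A + v.im ^ 2 * ‖A Complex.I‖ ^ 2 := by
  rw [mx_eq, app_eq A v]
  simp only [← Complex.normSq_eq_norm_sq, Complex.normSq_apply, Complex.add_re, Complex.add_im,
    Complex.real_smul, Complex.mul_re, Complex.mul_im, Complex.ofReal_re, Complex.ofReal_im]
  ring

theorem det_sq (A : ℂ →L[ℝ] ℂ) : A.det ^ 2 = ‖A 1‖ ^ 2 * ‖A Complex.I‖ ^ 2 - mx A ^ 2 := by
  rw [mx_eq, det_eq]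
  simp only [← Complex.normSq_eq_norm_sq, Complex.normSq_apply]
  ring

/-- equal norms, equal determinants up to the sign -/
theorem det_abs {A B : ℂ →L[ℝ] ℂ} (h : ∀ v, ‖A v‖ = ‖B v‖) : |A.det| = |B.det| := by
  rw [← sq_eq_sq_iff_abs_eq_abs, det_sq, det_sq]
  simp only [mx, h]

theorem det_comp (A B : ℂ →L[ℝ] ℂ) : (A.comp B).det = A.det * B.det := by
  have h : ((A.comp B : ℂ →L[ℝ] ℂ) : ℂ →ₗ[ℝ] ℂ) = (A : ℂ →ₗ[ℝ] ℂ).comp (B : ℂ →ₗ[ℝ] ℂ) := rfl
  show LinearMap.det ((A.comp B : ℂ →L[ℝ] ℂ) : ℂ →ₗ[ℝ] ℂ) = LinearMap.det (A : ℂ →ₗ[ℝ] ℂ) *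
    LinearMap.det (B : ℂ →ₗ[ℝ] ℂ)
  rw [h, LinearMap.det_comp]

/-- the Cholesky coframe of the form `e x² + 2 f x y + g y²` -/
def chol (e f g : ℝ) : ℂ →L[ℝ] ℂ :=
  (Complex.ofRealCLM.comp Complex.reCLM).comp (√e • ContinuousLinearMap.id ℝ ℂ) +
    (((f / √e : ℝ) : ℂ) + ((√(e * g - f ^ 2) / √e : ℝ) : ℂ) * Complex.I) •
      (Complex.ofRealCLM.comp Complex.imCLM)

theorem chol_app (e f g : ℝ) (v : ℂ) : chol e f g v =
    ((√e * v.re + f / √e * v.im : ℝ) : ℂ) + ((√(e * g - f ^ 2) / √e * v.im : ℝ) : ℂ) * Complex.I := by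
  apply Complex.ext
  · simp [chol]
  · simp [chol]

theorem chol_norm {e f g : ℝ} (he : 0 < e) (hd : 0 < e * g - f ^ 2) (v : ℂ) :
    ‖chol e f g v‖ ^ 2 = v.re ^ 2 * e + 2 * v.re * v.im * f + v.im ^ 2 * g := by
  rw [chol_app, ← Complex.normSq_eq_norm_sq, Complex.normSq_add_mul_I]
  have h1 : √e ^ 2 = e := Real.sq_sqrt he.le
  have h2 : √(e * g - f ^ 2) ^ 2 = e * g - f ^ 2 := Real.sq_sqrt hd.le
  have h3 : √e ≠ 0 := (Real.sqrt_pos.2 he).ne'
  have h4 : (√e * v.re + f / √e * v.im) ^ 2 + (√(e * g - f ^ 2) / √e * v.im) ^ 2 =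
      √e ^ 2 * v.re ^ 2 + 2 * v.re * v.im * f + (f ^ 2 + √(e * g - f ^ 2) ^ 2) / √e ^ 2 * v.im ^ 2 := by
    field_simp
    ring
  rw [h4, h1, h2]
  have h5 : (f ^ 2 + (e * g - f ^ 2)) / e = g := by
    field_simp
    ring
  rw [h5]
  ring

theorem chol_cont {X : Type} [TopologicalSpace X] {s : Set X} {e f g : X → ℝ} (he : ContinuousOn e s)
    (hf : ContinuousOn f s) (hg : ContinuousOn g s) (hp : ∀ x ∈ s, 0 < e x) :
    ContinuousOn (fun x => chol (e x) (f x) (g x)) s := by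
  have h1 : ContinuousOn (fun x => √(e x)) s := Real.continuous_sqrt.comp_continuousOn he
  have h2 : ∀ x ∈ s, √(e x) ≠ 0 := fun x hx => (Real.sqrt_pos.2 (hp x hx)).ne'
  have h3 : ContinuousOn (fun x => f x / √(e x)) s := hf.div h1 h2
  have h4 : ContinuousOn (fun x => √(e x * g x - f x ^ 2) / √(e x)) s :=
    (Real.continuous_sqrt.comp_continuousOn ((he.mul hg).sub (hf.pow 2))).div h1 h2
  refine ContinuousOn.add ?_ ?_
  · have h5 : ContinuousOn (fun x => √(e x) • ContinuousLinearMap.id ℝ ℂ) s :=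
      ContinuousOn.smul h1 continuousOn_const
    exact ContinuousOn.clm_comp continuousOn_const h5
  · have h5 : ContinuousOn (fun x => ((f x / √(e x) : ℝ) : ℂ) +
        ((√(e x * g x - f x ^ 2) / √(e x) : ℝ) : ℂ) * Complex.I) s := by
      refine ContinuousOn.add ?_ (ContinuousOn.mul ?_ continuousOn_const)
      · exact Complex.continuous_ofReal.comp_continuousOn h3
      · exact Complex.continuous_ofReal.comp_continuousOn h4
    exact ContinuousOn.smul h5 continuousOn_const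

/-! ### The surface with another metric -/

section surf

variable {M : Type} [MetricSpace M] [CompactSpace M] [MeasurableSpace M] [BorelSpace M] {μ : Measure M}
  {D : Data M}

theorem surf_of (S : D.IsSurf μ) (A' : Fin D.N → ℂ → ℂ →L[ℝ] ℂ) (hdet : ∀ i, ∀ z ∈ D.T i, (A' i z).det ≠ 0)
    (hcont : ∀ i, ContinuousOn (A' i) (D.T i))
    (htr : ∀ i j, ∀ x ∈ D.U i, x ∈ D.U j → ∀ v,
      ‖A' j (D.φ j x) (fderiv ℝ (fun z => D.φ j (D.ψ i z)) (D.φ i x) v)‖ = ‖A' i (D.φ i x) v‖) :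
    ∃ ν : Measure M, (Data.mk D.N D.U D.φ D.ψ A').IsSurf ν := by
  classical
  -- the density
  set r : Fin D.N → M → ℝ := fun i x => |(A' i (D.φ i x)).det| / |(D.A i (D.φ i x)).det| with hr
  have hrr : ∀ i j x, x ∈ D.U i → x ∈ D.U j → r i x = r j x := by
    intro i j x hi hj
    set P := fderiv ℝ (fun z => D.φ j (D.ψ i z)) (D.φ i x) with hP
    have h1 : |((A' j (D.φ j x)).comp P).det| = |(A' i (D.φ i x)).det| :=
      det_abs fun v => htr i j x hi hj v
    have h2 : |((D.A j (D.φ j x)).comp P).det| = |(D.A i (D.φ i x)).det| :=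
      det_abs fun v => (S.tr i j x hi hj).2 v
    have h3 : P.det ≠ 0 := by
      intro h0
      rw [det_comp, h0, mul_zero, abs_zero] at h2
      exact S.det i _ ⟨x, hi, rfl⟩ (abs_eq_zero.1 h2.symm)
    show |(A' i (D.φ i x)).det| / |(D.A i (D.φ i x)).det| = |(A' j (D.φ j x)).det| / |(D.A j (D.φ j x)).det|
    rw [← h1, ← h2, det_comp, det_comp, abs_mul, abs_mul, mul_div_mul_right _ _ (abs_ne_zero.2 h3)]
  choose k hk using S.cover
  set w : M → ℝ := fun x => r (k x) x with hw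
  have hwr : ∀ i x, x ∈ D.U i → w x = r i x := fun i x hx => hrr _ _ x (hk x) hx
  have hwpos : ∀ x, 0 < w x := fun x => div_pos (abs_pos.2 (hdet _ _ ⟨x, hk x, rfl⟩))
    (abs_pos.2 (S.det _ _ ⟨x, hk x, rfl⟩))
  have hwc : Continuous w := by
    rw [continuous_iff_continuousAt]
    intro x
    have h1 : ContinuousOn (r (k x)) (D.U (k x)) := by
      have h2 : MapsTo (D.φ (k x)) (D.U (k x)) (D.T (k x)) := fun y hy => ⟨y, hy, rfl⟩
      have h3 : ContinuousOn (fun y => |(A' (k x) (D.φ (k x) y)).det|) (D.U (k x)) :=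
        (ContinuousLinearMap.continuous_det.comp_continuousOn
          ((hcont (k x)).comp (S.contφ (k x)) h2)).abs
      have h4 : ContinuousOn (fun y => |(D.A (k x) (D.φ (k x) y)).det|) (D.U (k x)) :=
        (ContinuousLinearMap.continuous_det.comp_continuousOn
          ((S.contA (k x)).comp (S.contφ (k x)) h2)).abs
      exact h3.div h4 fun y hy => abs_ne_zero.2 (S.det _ _ ⟨y, hy, rfl⟩)
    have h5 : D.U (k x) ∈ 𝓝 x := (S.openU (k x)).mem_nhds (hk x)
    refine (h1.continuousAt h5).congr ?_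
    filter_upwards [h5] with y hy
    exact (hwr _ _ hy).symm
  refine ⟨wm μ w, S.openU, S.cover, S.left, S.contφ, S.openT, S.contψ, hdet, hcont,
    fun i j x hi hj => ⟨(S.tr i j x hi hj).1, htr i j x hi hj⟩, ?_⟩
  intro (i : Fin D.N) B (hB : B ⊆ D.U i) hBm
  show wm μ w B = ∫⁻ z in D.φ i '' B, ENNReal.ofReal |(A' i z).det|
  have hmeasw : Measurable fun x => ENNReal.ofReal (w x) := hwc.measurable.ennreal_ofReal
  have h1 := (Pool.Agent.Y960.QE.int_chart M μ D S i).1 (B.indicator fun x => ENNReal.ofReal (w x))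
    (hmeasw.indicator hBm)
  have h2 : ∫⁻ x in D.U i, B.indicator (fun x => ENNReal.ofReal (w x)) x ∂μ = wm μ w B := by
    rw [lintegral_indicator hBm, Measure.restrict_restrict hBm, inter_eq_left.mpr hB, wm,
      withDensity_apply _ hBm]
  have himg : ∀ z ∈ D.T i, (D.ψ i z ∈ B ↔ z ∈ D.φ i '' B) := by
    rintro z ⟨x, hx, rfl⟩
    rw [S.left i x hx]
    constructor
    · intro h
      exact ⟨x, h, rfl⟩
    · rintro ⟨y, hy, hxy⟩
      have h3 : D.ψ i (D.φ i y) = D.ψ i (D.φ i x) := by rw [hxy]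
      rw [S.left i y (hB hy), S.left i x hx] at h3
      exact h3 ▸ hy
  have hTm : MeasurableSet (D.T i) := (S.openT i).measurableSet
  have himgm : MeasurableSet (D.φ i '' B) := Pool.Agent.Y960.QE.meas_im S i hB hBm
  have hBT : D.φ i '' B ⊆ D.T i := image_mono hB
  have e1 : ∫⁻ z in D.T i, B.indicator (fun x => ENNReal.ofReal (w x)) (D.ψ i z) *
      ENNReal.ofReal |(D.A i z).det| =
      ∫⁻ z in D.T i, (D.φ i '' B).indicator (fun z => ENNReal.ofReal |(A' i z).det|) z := by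
    apply setLIntegral_congr_fun hTm
    intro z hz
    by_cases hzB : z ∈ D.φ i '' B
    · have h3 : D.ψ i z ∈ B := (himg z hz).mpr hzB
      simp only [indicator_of_mem h3, indicator_of_mem hzB]
      obtain ⟨x, hx, rfl⟩ := hz
      rw [S.left i x hx, hwr i x hx, ← ENNReal.ofReal_mul (div_nonneg (abs_nonneg _) (abs_nonneg _))]
      congr 1
      show |(A' i (D.φ i x)).det| / |(D.A i (D.φ i x)).det| * |(D.A i (D.φ i x)).det| = _
      rw [div_mul_cancel₀]
      exact abs_ne_zero.2 (S.det _ _ ⟨x, hx, rfl⟩)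
    · have h3 : D.ψ i z ∉ B := fun h => hzB ((himg z hz).mp h)
      simp only [indicator_of_notMem h3, indicator_of_notMem hzB, zero_mul]
  rw [← h2, h1, e1, lintegral_indicator himgm, Measure.restrict_restrict himgm, inter_eq_left.mpr hBT]

end surf

end Pool.Agent.L7h53.SM
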