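import Pool.Agent.L7h70.SM.Stm
import Pool.Agent.L7h53.SM.Srf

/-!
# Project SM: the space of the continuous metrics on a surface is a Baire space
-/

set_option autoImplicit false
set_option linter.unusedSectionVars false

open Set Filter Topology MeasureTheory
open scoped Real ContDiff ENNReal NNReal
open Pool.Agent.Y262.QE

noncomputable section

namespace Pool.Agent.L7h53.SM

open Pool.Agent.L7h70.SM (mk Near Met S_BAIM)

section near

variable {M : Type} {D : Data M} {A B C : Fin D.N → ℂ → ℂ →L[ℝ] ℂ} {ε δ : ℝ}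

theorem near_refl (A : Fin D.N → ℂ → ℂ →L[ℝ] ℂ) : Near D 0 A A := by
  intro i z _ v
  rw [Real.exp_zero, one_mul]
  exact ⟨le_rfl, le_rfl⟩

theorem near_symm (h : Near D ε A B) : Near D ε B A := fun i z hz v => ⟨(h i z hz v).2, (h i z hz v).1⟩

theorem near_mono (h : Near D ε A B) (hε : ε ≤ δ) : Near D δ A B := by
  intro i z hz v
  have h1 := Real.exp_le_exp.2 hε
  exact ⟨(h i z hz v).1.trans (mul_le_mul_of_nonneg_right h1 (norm_nonneg _)),
    (h i z hz v).2.trans (mul_le_mul_of_nonneg_right h1 (norm_nonneg _))⟩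

theorem near_trans (h : Near D ε A B) (h' : Near D δ B C) : Near D (ε + δ) A C := by
  intro i z hz v
  obtain ⟨h1, h2⟩ := h i z hz v
  obtain ⟨h3, h4⟩ := h' i z hz v
  rw [Real.exp_add]
  constructor
  · calc ‖A i z v‖ ≤ Real.exp ε * ‖B i z v‖ := h1
      _ ≤ Real.exp ε * (Real.exp δ * ‖C i z v‖) := mul_le_mul_of_nonneg_left h3 (Real.exp_pos _).le
      _ = _ := by ring
  · calc ‖C i z v‖ ≤ Real.exp δ * ‖B i z v‖ := h4
      _ ≤ Real.exp δ * (Real.exp ε * ‖A i z v‖) := mul_le_mul_of_nonneg_left h2 (Real.exp_pos _).le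
      _ = _ := by ring

end near

/-! ### Limits -/

theorem seq_lim {a c : ℕ → ℝ} (hc0 : ∀ n, 0 ≤ c n) (hc : Tendsto c atTop (𝓝 0)) (ha : ∀ n, 0 ≤ a n)
    (h : ∀ N n m, N ≤ n → N ≤ m → a n ≤ Real.exp (c N) * a m) : ∃ l, Tendsto a atTop (𝓝 l) := by
  have h1 : ∀ n m N, N ≤ n → N ≤ m → a n - a m ≤ (Real.exp (c N) - 1) * (Real.exp (c 0) * a 0) := by
    intro n m N hn hm
    have h2 := h N n m hn hm
    have h3 := h 0 m 0 (Nat.zero_le _) le_rfl
    have h4 : 0 ≤ Real.exp (c N) - 1 := by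
      have := Real.one_le_exp (hc0 N)
      linarith
    nlinarith [mul_le_mul_of_nonneg_left h3 h4]
  have h2 : CauchySeq a := by
    refine cauchySeq_of_le_tendsto_0 (fun N => (Real.exp (c N) - 1) * (Real.exp (c 0) * a 0)) ?_ ?_
    · intro n m N hn hm
      rw [Real.dist_eq, abs_sub_le_iff]
      exact ⟨h1 n m N hn hm, h1 m n N hm hn⟩
    · have h3 : Tendsto (fun N => (Real.exp (c N) - 1) * (Real.exp (c 0) * a 0)) atTop
          (𝓝 ((Real.exp 0 - 1) * (Real.exp (c 0) * a 0))) :=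
        (((Real.continuous_exp.tendsto 0).comp hc).sub_const 1).mul_const _
      rwa [Real.exp_zero, sub_self, zero_mul] at h3
  exact cauchySeq_tendsto_of_complete h2

theorem app_pos {A : ℂ →L[ℝ] ℂ} (hA : A.det ≠ 0) {v : ℂ} (hv : v ≠ 0) : 0 < ‖A v‖ := by
  rw [norm_pos_iff]
  intro h
  have h1 := Pool.Agent.Y708.QE.inv_apply' hA v
  rw [h, map_zero] at h1
  exact hv h1.symm

section lim

variable {M : Type} [MetricSpace M] [CompactSpace M] [MeasurableSpace M] [BorelSpace M] {D : Data M}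

theorem limit (u : ℕ → Met D) (c : ℕ → ℝ) (hc0 : ∀ n, 0 ≤ c n) (hc : Tendsto c atTop (𝓝 0))
    (h : ∀ N n m, N ≤ n → N ≤ m → Near D (c N) (u n).A (u m).A) :
    ∃ g : Met D, ∀ n, Near D (c n) (u n).A g.A := by
  classical
  have hT : ∀ i z, z ∈ D.T i → ∀ v, ∃ l, Tendsto (fun n => ‖(u n).A i z v‖) atTop (𝓝 l) := by
    intro i z hz v
    exact seq_lim hc0 hc (fun n => norm_nonneg _) fun N n m hn hm => (h N n m hn hm i z hz v).1
  choose! q hq using hT
  have hle : ∀ i z, z ∈ D.T i → ∀ n v, q i z v ≤ Real.exp (c n) * ‖(u n).A i z v‖ := by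
    intro i z hz n v
    refine le_of_tendsto (hq i z hz v) ?_
    filter_upwards [eventually_ge_atTop n] with m hm
    exact (h n m n hm le_rfl i z hz v).1
  have hge : ∀ i z, z ∈ D.T i → ∀ n v, ‖(u n).A i z v‖ ≤ Real.exp (c n) * q i z v := by
    intro i z hz n v
    refine ge_of_tendsto ((hq i z hz v).const_mul _) ?_
    filter_upwards [eventually_ge_atTop n] with m hm
    exact (h n n m le_rfl hm i z hz v).1
  have hnn : ∀ i z, z ∈ D.T i → ∀ v, 0 ≤ q i z v := fun i z hz v =>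
    ge_of_tendsto' (hq i z hz v) fun n => norm_nonneg _
  have hA0 : ∀ n i z, z ∈ D.T i → ∀ v, v ≠ 0 → 0 < ‖(u n).A i z v‖ := by
    intro n i z hz v hv
    exact app_pos ((u n).surf.det i z hz) hv
  have hpos : ∀ i z, z ∈ D.T i → ∀ v, v ≠ 0 → 0 < q i z v := by
    intro i z hz v hv
    by_contra h0
    have h1 := hge i z hz 0 v
    have h2 := hA0 0 i z hz v hv
    have h3 : Real.exp (c 0) * q i z v ≤ 0 :=
      mul_nonpos_of_nonneg_of_nonpos (Real.exp_pos _).le (not_lt.1 h0)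
    linarith
  -- continuity
  have hqc : ∀ i v, v ≠ 0 → ContinuousOn (fun z => q i z v) (D.T i) := by
    intro i v hv
    have h1 : TendstoUniformlyOn (fun n z => Real.log ‖(u n).A i z v‖) (fun z => Real.log (q i z v))
        atTop (D.T i) := by
      rw [Metric.tendstoUniformlyOn_iff]
      intro ε hε
      filter_upwards [hc.eventually (gt_mem_nhds hε)] with n hn z hz
      refine lt_of_le_of_lt ?_ hn
      have h2 := hpos i z hz v hv
      have h3 := hA0 n i z hz v hv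
      have h4 := Real.log_le_log h2 (hle i z hz n v)
      have h5 := Real.log_le_log h3 (hge i z hz n v)
      rw [Real.log_mul (Real.exp_pos _).ne' h3.ne', Real.log_exp] at h4
      rw [Real.log_mul (Real.exp_pos _).ne' h2.ne', Real.log_exp] at h5
      rw [Real.dist_eq, abs_sub_le_iff]
      constructor <;> linarith
    have h2 : ContinuousOn (fun z => Real.log (q i z v)) (D.T i) := by
      refine h1.continuousOn (Eventually.frequently (Eventually.of_forall fun n => ?_))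
      have h3 : ContinuousOn (fun z => (u n).A i z v) (D.T i) :=
        ((u n).surf.contA i).clm_apply continuousOn_const
      exact h3.norm.log fun z hz => (hA0 n i z hz v hv).ne'
    have h3 : ContinuousOn (fun z => Real.exp (Real.log (q i z v))) (D.T i) :=
      Real.continuous_exp.comp_continuousOn h2
    refine h3.congr fun z hz => ?_
    exact (Real.exp_log (hpos i z hz v hv)).symm
  have hI : (Complex.I : ℂ) ≠ 0 := Complex.I_ne_zero
  have h1I : (1 + Complex.I : ℂ) ≠ 0 := by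
    intro h0
    have := congrArg Complex.im h0
    simp at this
  set e : Fin D.N → ℂ → ℝ := fun i z => q i z 1 ^ 2 with he
  set g : Fin D.N → ℂ → ℝ := fun i z => q i z Complex.I ^ 2 with hg
  set f : Fin D.N → ℂ → ℝ := fun i z => (q i z (1 + Complex.I) ^ 2 - e i z - g i z) / 2 with hf
  have hQ : ∀ i z, z ∈ D.T i → ∀ v : ℂ, q i z v ^ 2 =
      v.re ^ 2 * e i z + 2 * v.re * v.im * f i z + v.im ^ 2 * g i z := by
    intro i z hz v
    refine tendsto_nhds_unique ((hq i z hz v).pow 2) ?_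
    have h1 : (fun n => ‖(u n).A i z v‖ ^ 2) = fun n => v.re ^ 2 * ‖(u n).A i z 1‖ ^ 2 +
        2 * v.re * v.im * ((‖(u n).A i z (1 + Complex.I)‖ ^ 2 - ‖(u n).A i z 1‖ ^ 2 -
          ‖(u n).A i z Complex.I‖ ^ 2) / 2) + v.im ^ 2 * ‖(u n).A i z Complex.I‖ ^ 2 := by
      funext n
      exact nsq _ v
    rw [h1]
    have t1 := (hq i z hz 1).pow 2
    have t2 := (hq i z hz Complex.I).pow 2
    have t3 := (hq i z hz (1 + Complex.I)).pow 2
    exact ((t1.const_mul _).add ((((t3.sub t1).sub t2).div_const 2).const_mul _)).add (t2.const_mul _)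
  have hepos : ∀ i z, z ∈ D.T i → 0 < e i z := fun i z hz => pow_pos (hpos i z hz 1 one_ne_zero) 2
  have hd : ∀ i z, z ∈ D.T i → 0 < e i z * g i z - f i z ^ 2 := by
    intro i z hz
    have h1 : (⟨-f i z, e i z⟩ : ℂ) ≠ 0 := by
      intro h0
      have := congrArg Complex.im h0
      exact (hepos i z hz).ne' this
    have h2 := pow_pos (hpos i z hz _ h1) 2
    rw [hQ i z hz] at h2
    have h3 : (0 : ℝ) < e i z * (e i z * g i z - f i z ^ 2) := by
      have h4 : (⟨-f i z, e i z⟩ : ℂ).re = -f i z := rfl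
      have h5 : (⟨-f i z, e i z⟩ : ℂ).im = e i z := rfl
      rw [h4, h5] at h2
      linarith [h2]
    exact (mul_pos_iff_of_pos_left (hepos i z hz)).1 h3
  set A' : Fin D.N → ℂ → ℂ →L[ℝ] ℂ := fun i z => chol (e i z) (f i z) (g i z) with hA'
  have hn : ∀ i z, z ∈ D.T i → ∀ v, ‖A' i z v‖ = q i z v := by
    intro i z hz v
    have h1 : ‖A' i z v‖ ^ 2 = q i z v ^ 2 := by
      rw [hQ i z hz]
      exact chol_norm (hepos i z hz) (hd i z hz) v
    exact (sq_eq_sq₀ (norm_nonneg _) (hnn i z hz v)).1 h1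
  have hdet : ∀ i, ∀ z ∈ D.T i, (A' i z).det ≠ 0 := by
    intro i z hz h0
    have h1 := det_sq (A' i z)
    rw [h0, mx, hn i z hz, hn i z hz, hn i z hz] at h1
    have h2 := hd i z hz
    have h3 : f i z = (q i z (1 + Complex.I) ^ 2 - q i z 1 ^ 2 - q i z Complex.I ^ 2) / 2 := rfl
    rw [← h3] at h1
    have h4 : e i z * g i z - f i z ^ 2 = q i z 1 ^ 2 * q i z Complex.I ^ 2 - f i z ^ 2 := rfl
    rw [h4, ← h1] at h2
    norm_num at h2
  have hcont : ∀ i, ContinuousOn (A' i) (D.T i) := by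
    intro i
    have h1 := (hqc i 1 one_ne_zero).pow 2
    have h2 := (hqc i Complex.I hI).pow 2
    have h3 := (hqc i _ h1I).pow 2
    exact chol_cont (e := e i) (f := f i) (g := g i) h1 (((h3.sub h1).sub h2).div_const 2) h2
      fun z hz => hepos i z hz
  have htr : ∀ i j, ∀ x ∈ D.U i, x ∈ D.U j → ∀ v,
      ‖A' j (D.φ j x) (fderiv ℝ (fun z => D.φ j (D.ψ i z)) (D.φ i x) v)‖ = ‖A' i (D.φ i x) v‖ := by
    intro i j x hi hj v
    rw [hn j _ ⟨x, hj, rfl⟩, hn i _ ⟨x, hi, rfl⟩]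
    refine tendsto_nhds_unique (hq j _ ⟨x, hj, rfl⟩ _) ?_
    have h1 : (fun n => ‖(u n).A j (D.φ j x) (fderiv ℝ (fun z => D.φ j (D.ψ i z)) (D.φ i x) v)‖) =
        fun n => ‖(u n).A i (D.φ i x) v‖ := by
      funext n
      exact ((u n).surf.tr i j x hi hj).2 v
    rw [h1]
    exact hq i _ ⟨x, hi, rfl⟩ v
  obtain ⟨ν, hν⟩ := surf_of (D := mk D (u 0).A) (u 0).surf A' hdet hcont htr
  refine ⟨⟨A', ν, hν⟩, fun n i z hz v => ?_⟩
  show ‖(u n).A i z v‖ ≤ Real.exp (c n) * ‖A' i z v‖ ∧ ‖A' i z v‖ ≤ Real.exp (c n) * ‖(u n).A i z v‖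
  rw [hn i z hz]
  exact ⟨hge i z hz n v, hle i z hz n v⟩

end lim

/-! ### The distance -/

section dist

variable {M : Type} [MetricSpace M] [CompactSpace M] [MeasurableSpace M] [BorelSpace M] {D : Data M}

/-- the distance of two metrics -/
def nd (g g' : Met D) : ℝ≥0∞ := ⨅ (ε : ℝ≥0) (_ : Near D (ε : ℝ) g.A g'.A), (ε : ℝ≥0∞)

theorem near_of_lt {g g' : Met D} {ε : ℝ} (h : nd g g' < ENNReal.ofReal ε) : Near D ε g.A g'.A := by
  rw [nd, iInf_lt_iff] at h
  obtain ⟨δ, hδ⟩ := h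
  rw [iInf_lt_iff] at hδ
  obtain ⟨hn, hlt⟩ := hδ
  refine near_mono hn ?_
  have h1 : (δ : ℝ≥0∞) < ((Real.toNNReal ε : ℝ≥0) : ℝ≥0∞) := hlt
  have h2 : δ < Real.toNNReal ε := ENNReal.coe_lt_coe.1 h1
  exact (Real.lt_toNNReal_iff_coe_lt.1 h2).le

theorem nd_le {g g' : Met D} {ε : ℝ} (h0 : 0 ≤ ε) (h : Near D ε g.A g'.A) : nd g g' ≤ ENNReal.ofReal ε := by
  have h1 : Near D ((Real.toNNReal ε : ℝ≥0) : ℝ) g.A g'.A := by
    rw [Real.coe_toNNReal _ h0]
    exact h
  exact iInf₂_le (Real.toNNReal ε) h1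

/-- the metrics, with the distance -/
def MetE (D : Data M) : Type := Met D

instance : PseudoEMetricSpace (MetE D) where
  edist g g' := nd (D := D) g g'
  edist_self g := by
    have h1 : nd (D := D) g g ≤ ENNReal.ofReal 0 := nd_le le_rfl (near_refl _)
    rw [ENNReal.ofReal_zero] at h1
    exact le_antisymm h1 bot_le
  edist_comm g g' := by
    show nd (D := D) g g' = nd (D := D) g' g
    unfold nd
    refine iInf_congr fun ε => ?_
    exact iInf_congr_Prop ⟨near_symm, near_symm⟩ fun _ => rfl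
  edist_triangle a b c := by
    show nd (D := D) a c ≤ nd (D := D) a b + nd (D := D) b c
    conv_rhs => unfold nd
    simp only [ENNReal.iInf_add, ENNReal.add_iInf]
    refine le_iInf fun ε => le_iInf fun h => le_iInf fun δ => le_iInf fun h' => ?_
    exact (iInf₂_le (ε + δ) (by push_cast; rw [add_comm]; exact near_trans h' h)).trans
      (by push_cast; rw [add_comm])

theorem edist_def (g g' : MetE D) : edist g g' = nd (D := D) g g' := rfl

theorem top_eq : (inferInstance : TopologicalSpace (Met D)) =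
    (inferInstanceAs (TopologicalSpace (MetE D)) : TopologicalSpace (MetE D)) := by
  refine TopologicalSpace.ext_iff.2 fun s => ?_
  constructor
  · intro h
    refine (EMetric.isOpen_iff (α := MetE D)).2 fun g hg => ?_
    obtain ⟨ε, hε, h1⟩ := h g hg
    refine ⟨ENNReal.ofReal ε, ENNReal.ofReal_pos.2 hε, fun g' hg' => h1 g' ?_⟩
    have h2 : edist g' g < ENNReal.ofReal ε := hg'
    rw [edist_comm] at h2
    exact near_of_lt h2
  · intro h g hg
    obtain ⟨ε, hε, h1⟩ := (EMetric.isOpen_iff (α := MetE D)).1 h g hg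
    obtain ⟨δ, hδ, hδε⟩ : ∃ δ : ℝ, 0 < δ ∧ ENNReal.ofReal δ < ε := by
      obtain ⟨r, hr, hr'⟩ := ENNReal.lt_iff_exists_nnreal_btwn.1 hε
      refine ⟨r, by exact_mod_cast hr, ?_⟩
      rw [ENNReal.ofReal_coe_nnreal]
      exact hr'
    refine ⟨δ, hδ, fun g' hg' => h1 ?_⟩
    have h3 : nd g' g < ε := lt_of_le_of_lt (nd_le hδ.le (near_symm hg')) hδε
    exact h3

instance : CompleteSpace (MetE D) := by
  refine EMetric.complete_of_convergent_controlled_sequences (fun n => ENNReal.ofReal ((1 / 2 : ℝ) ^ n))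
    (fun n => ENNReal.ofReal_pos.2 (by positivity)) fun u hu => ?_
  have hc : Tendsto (fun n : ℕ => (1 / 2 : ℝ) ^ n) atTop (𝓝 0) :=
    tendsto_pow_atTop_nhds_zero_of_lt_one (by norm_num) (by norm_num)
  obtain ⟨g, hg⟩ := limit (D := D) u (fun n => (1 / 2 : ℝ) ^ n) (fun n => by positivity) hc
    fun N n m hn hm => near_of_lt (hu N n m hn hm)
  refine ⟨g, EMetric.tendsto_atTop.2 fun ε hε => ?_⟩
  have h1 : Tendsto (fun n : ℕ => ENNReal.ofReal ((1 / 2 : ℝ) ^ n)) atTop (𝓝 0) := by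
    have := ENNReal.tendsto_ofReal hc
    rwa [ENNReal.ofReal_zero] at this
  obtain ⟨N, hN⟩ := eventually_atTop.1 (h1.eventually (gt_mem_nhds hε))
  refine ⟨N, fun n hn => lt_of_le_of_lt ?_ (hN n hn)⟩
  exact nd_le (by positivity) (hg n)

theorem baireE : BaireSpace (MetE D) := inferInstance

end dist

theorem s_BAIM : S_BAIM := by
  intro M _ _ _ _ D μ _
  have h := baireE (D := D)
  have h1 := top_eq (D := D)
  show @BaireSpace (Met D) inferInstance
  rw [h1]
  exact h

end Pool.Agent.L7h53.SM
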